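import Mathlib
import Pool.Agent.Lib18ea5f.WCount
import Pool.Agent.Lib18ea5f.ConfHt

set_option autoImplicit false

/-!
# Weak Manin conjecture for the smooth GIT quotients of `(P^1)^n` by `SL_2` and their `K`-forms

The quotient for the weights `w` is written `X_w`.  For `w = (1, ..., 1)` and `n = 5` these are all
the smooth quintic del Pezzo surfaces.

The definitions used besides those below (`Config`, `Config.Rel`, `configSetoid`, `Config.pl`,
`Config.sec`, `Config.height`, `classHeight`) are in `Pool.Agent.Lib18ea5f.ConfDefs` and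
`Pool.Agent.Lib18ea5f.ConfHt`.
-/

namespace Pool.Agent.Results.MP_18ea5f_nt.WeakManinGIT

open Finset
open Pool.Lib18ea5f

/-- Positive weights for which the quotient `X_w` is nonempty and smooth: no point has at least one
half of the weight, and there are no strictly semistable configurations. -/
def Generic {X : Type} [Fintype X] (w : X → ℕ) : Prop :=
  (∀ x, 0 < w x) ∧ (∀ x, 2 * w x < ∑ y, w y) ∧
    ∀ A : Finset X, 2 * ∑ x ∈ A, w x ≠ ∑ x, w x

/-- The class `O(d)` is semiample on `X_w`: all configurations stable for `w` are semistable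
for `d`. -/
def Nef {X : Type} [Fintype X] (w d : X → ℕ) : Prop :=
  ∀ A : Finset X, 2 * ∑ x ∈ A, w x < ∑ x, w x → 2 * ∑ x ∈ A, d x ≤ ∑ x, d x

/-- The class `O(e)` is pseudo-effective on `X_w`: up to a real combination of the classes of the
`O(1_x + 1_y)`, where `x ≠ y` and two points are not allowed to coincide at `x` and `y` (these
classes are trivial on `X_w`), the entries of `e` are nonnegative and none of them exceeds
one half of their sum. -/
def Eff {X : Type} [Fintype X] (w : X → ℕ) (e : X → ℝ) : Prop :=
  ∃ c : X → X → ℝ, (∀ x y, c x y = c y x) ∧ (∀ x, c x x = 0) ∧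
    (∀ x y, x ≠ y → 2 * (w x + w y) < ∑ z, w z → c x y = 0) ∧
    ∀ x, 0 ≤ e x + ∑ y, c x y ∧ 2 * (e x + ∑ y, c x y) ≤ ∑ z, (e z + ∑ y, c z y)

theorem result (K M X : Type) [Field K] [NumberField K] [Field M] [NumberField M] [Algebra K M]
    [IsGalois K M] [Fintype X] [DecidableEq X] [MulAction (M ≃ₐ[K] M) X]
    -- the Galois invariant weights
    (w : X → ℕ) (hw : Generic w) (hwG : ∀ (g : M ≃ₐ[K] M) x, w (g • x) = w x)
    -- the class `L = O(d)`, and the class `t L - O(2,...,2)`
    (d : X → ℕ) (hd : Nef w d) (t : ℝ) (ht0 : 0 < t) (ht : Eff w (fun x => t * d x - 2)) :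
    ∃ C : ℝ, 0 < C ∧ ∀ T : ℝ, 1 ≤ T →
      {q : Quotient (configSetoid K M X) | classHeight d q ≤ T}.Finite ∧
      ({q : Quotient (configSetoid K M X) | classHeight d q ≤ T}.ncard : ℝ) ≤
        C * T ^ t * (1 + Real.log T) ^ (3 * Fintype.card X) := by
  classical
  have hfin : FiniteDimensional K M := Module.Finite.of_restrictScalars_finite ℚ K M
  obtain ⟨c, hcs, hcd, hcu, hce⟩ := ht
  obtain ⟨C, hC, hcount⟩ := wconf_count (K := K) (M := M) w hw.1 (fun x => (hw.2.1 x).le) hwG
    hw.2.2 d hd t ht0 c hcs hcd hcu hce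
  refine ⟨C, hC, fun T hT => ?_⟩
  -- every finite set of classes of height at most `T` has few elements
  have key : ∀ F : Finset (Quotient (configSetoid K M X)), (∀ q ∈ F, classHeight d q ≤ T) →
      (F.card : ℝ) ≤ C * T ^ t * (1 + Real.log T) ^ (3 * Fintype.card X) := by
    intro F hF
    have hinj : Function.Injective
        (Quotient.out : Quotient (configSetoid K M X) → Config K M X) :=
      fun a b hab => by rw [← Quotient.out_eq a, ← Quotient.out_eq b, hab]
    have := hcount T hT (F.image Quotient.out) ?_ ?_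
    · rwa [Finset.card_image_of_injective _ hinj] at this
    · intro P hP
      obtain ⟨q, hq, rfl⟩ := Finset.mem_image.mp hP
      have h1 := hF q hq
      rw [← Quotient.out_eq q] at h1
      exact h1
    · intro P hP P' hP' hrel
      obtain ⟨q, hq, rfl⟩ := Finset.mem_image.mp hP
      obtain ⟨q', hq', rfl⟩ := Finset.mem_image.mp hP'
      have h1 : q = q' := by
        rw [← Quotient.out_eq q, ← Quotient.out_eq q']
        exact Quotient.sound hrel
      rw [h1]
  have hfinite : {q : Quotient (configSetoid K M X) | classHeight d q ≤ T}.Finite := by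
    by_contra hinf
    obtain ⟨F, hFsub, hFcard⟩ := Set.Infinite.exists_subset_card_eq hinf
      (⌊C * T ^ t * (1 + Real.log T) ^ (3 * Fintype.card X)⌋₊ + 1)
    have h1 := key F (fun q hq => hFsub hq)
    rw [hFcard] at h1
    have h2 := Nat.lt_floor_add_one (C * T ^ t * (1 + Real.log T) ^ (3 * Fintype.card X))
    push_cast at h1
    linarith
  refine ⟨hfinite, ?_⟩
  rw [Set.ncard_eq_toFinset_card _ hfinite]
  exact key _ (fun q hq => by simpa using hq)

end Pool.Agent.Results.MP_18ea5f_nt.WeakManinGIT
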