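import Mathlib
import Pool.Agent.GC.Defs
import Pool.Agent.GC.All

set_option autoImplicit false

/-!
# MP_18ea5f_nt: the weak Manin conjecture for equivariant compactifications of linear algebraic
groups

`G` is a connected linear algebraic group over a number field `K` (a closed subgroup `I` of `SL_N`
with a generically finite dominant rational map `φ` from an affine space), acting on the closure
`X` of the orbit of `[v₀]`, a point with trivial stabiliser, in `P^(N-1)`.  The height attached to
a generically finite family `L` of functions on `G`, stable under translations, satisfies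
`N(G, L, T) ≤ C T^(k/m) (1 + log T)^e` as soon as `m K_X + k L` has a nonzero section `Q`; the
sheaf `K_X + (d+1) A` is described by the Plücker coordinates of the tangent spaces of `X`.
-/

namespace Pool.Agent.Results.MP_18ea5f_nt.WeakManinGroup

open MvPolynomial Pool.GC

/-- Weak Manin bound for equivariant compactifications of linear algebraic groups. -/
theorem result (K : Type) [Field K] [NumberField K] (N d a : ℕ)
    (I : Set (MvPolynomial (Fin N × Fin N) K))
    (ξ : Fin d → Matrix (Fin N) (Fin N) K) (φ : Matrix (Fin N) (Fin N) (RF K d))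
    (v₀ : Fin N → K) (L : Fin a → MvPolynomial (Fin N × Fin N) K)
    (Q : MvPolynomial (Fin N × Fin N) K) (m k : ℕ)
    (hI : IsGroup I) (hξ : IsLieBasis I ξ) (hφ : IsParam I φ) (hv₀ : v₀ ≠ 0)
    (hfree : FreeAt I v₀) (hL : StableFam I L) (hbig : BigFam φ L) (hm : 0 < m)
    (hQ : ev Q φ ≠ 0)
    (heff : ∀ i, IntegralOver
      (Submodule.span K (Set.range (plk ξ (orb v₀ φ))) ^ m *
        Submodule.span K (Set.range fun j => ev (L j) φ) ^ k)
      (ev Q φ * orb v₀ φ i ^ (m * (d + 1)))) :
    ∃ (C : ℝ) (e : ℕ), ∀ T : ℝ, 1 ≤ T →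
      {γ | γ ∈ pts I K ∧ Height.mulHeight (fun j => ev (L j) γ) ≤ T}.Finite ∧
      ({γ | γ ∈ pts I K ∧ Height.mulHeight (fun j => ev (L j) γ) ≤ T}.ncard : ℝ) ≤
        C * T ^ ((k : ℝ) / (m : ℝ)) * (1 + Real.log T) ^ e :=
  all_main K N d a I ξ φ v₀ L Q m k hI hξ hφ hv₀ hfree hL hbig hm hQ heff

end Pool.Agent.Results.MP_18ea5f_nt.WeakManinGroup
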