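import Mathlib
import Pool.Agent.QM.All

set_option autoImplicit false

/-!
# Weak Manin conjecture for the moduli spaces of stable representations of acyclic quivers

`Q` is an acyclic quiver with a dimension vector `d`, `θ` a stability condition with `θ(d) = 0`
and `θ(e) ≠ 0` for `0 < e < d`, and `M` the moduli space of `θ`-stable representations: the
quotient of the open set of `θ`-stable representations by `∏ GL_{d_i}`, a smooth projective
variety.  `L` is the line bundle of a character `ℓ` with `ℓ(d) = 0`: the sections of `L^n` are the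
semi-invariants of weight `n ℓ`.  The anticanonical class is that of the character `Q.can`.

The definitions (`Quiv`, `Acyclic`, `Rep`, `Grp`, `act`, `chr`, `ev`, `SemiInv`, `HasSub`, `dot`,
`Semistable`, `Stable`, `can`, `Bpf`, `height`, `orbitSetoid`) are in `Pool.Agent.QM.Defs`.
-/

namespace Pool.Agent.Results.MP_18ea5f_nt.WeakManinQuiver

open Finset NumberField Pool.QM

theorem result (K : Type) [Field K] [NumberField K] (Q : Quiv) (hQ : Q.Acyclic) :
    -- the open set `P ≠ 0`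
    ∃ P : MvPolynomial Q.Coord K, P ≠ 0 ∧
    -- the stability condition `θ`
    ∀ θ : Fin Q.nv → ℤ, dot θ Q.d = 0 →
    (∀ e : Fin Q.nv → ℕ, e ≤ Q.d → e ≠ 0 → e ≠ Q.d → dot θ e ≠ 0) →
    -- the line bundle `L`; it is semiample (nef): `θ`-semistable implies `ℓ`-semistable
    ∀ ℓ : Fin Q.nv → ℤ, dot ℓ Q.d = 0 →
    (∀ (F : Type) [Field F] [Algebra K F] (y : Q.Rep F), Q.Semistable θ y → Q.Semistable ℓ y) →
    -- sections `s_j` of `L^n` without common zero
    ∀ n : ℕ, 1 ≤ n → ∀ (ι : Type) [Fintype ι] (s : ι → MvPolynomial Q.Coord K),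
    (∀ j, Q.SemiInv (fun i => n * ℓ i) (s j)) → Q.Bpf ℓ s →
    -- `L` is big: `m L - θ` is effective for some `m`, where `θ` is ample
    (∃ (m : ℕ) (f : MvPolynomial Q.Coord K), 1 ≤ m ∧ f ≠ 0 ∧
      Q.SemiInv (fun i => m * ℓ i - θ i) f) →
    -- `t L + K_M` is effective, `t = p / q`
    ∀ p q : ℕ, 1 ≤ q → (∃ (m : ℕ) (f : MvPolynomial Q.Coord K), 1 ≤ m ∧ f ≠ 0 ∧
      Q.SemiInv (fun i => m * (p * ℓ i - q * Q.can i)) f) →
    -- the number of points of bounded height
    ∃ (C : ℝ) (k : ℕ), 0 < C ∧ ∀ T : ℝ, 1 ≤ T →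
      {o : Quotient (Q.orbitSetoid K) | ∃ x : Q.Rep K, Quotient.mk (Q.orbitSetoid K) x = o ∧
        Q.Stable θ x ∧ Q.ev P x ≠ 0 ∧ Q.height n s x ≤ T}.Finite ∧
      ({o : Quotient (Q.orbitSetoid K) | ∃ x : Q.Rep K, Quotient.mk (Q.orbitSetoid K) x = o ∧
        Q.Stable θ x ∧ Q.ev P x ≠ 0 ∧ Q.height n s x ≤ T}.ncard : ℝ) ≤
        C * T ^ ((p : ℝ) / q) * (1 + Real.log T) ^ k := by
  classical
  obtain ⟨P, hP0, hP⟩ := main_all K Q hQ
  refine ⟨P, hP0, ?_⟩
  intro θ hθd hgen ℓ hℓd hnef n hn ι _ s hs hbpf hbig p q hq heff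
  obtain ⟨C, k, hC, hcount⟩ := hP θ ℓ hθd hℓd hgen hnef n hn ι s hs hbpf hbig p q hq heff
  refine ⟨C, k, hC, fun T hT => ?_⟩
  set A : Set (Quotient (Q.orbitSetoid K)) :=
    {o | ∃ x : Q.Rep K, Quotient.mk (Q.orbitSetoid K) x = o ∧
      Q.Stable θ x ∧ Q.ev P x ≠ 0 ∧ Q.height n s x ≤ T} with hA
  -- every finite set of classes has few elements
  have key : ∀ F : Finset (Quotient (Q.orbitSetoid K)), (∀ o ∈ F, o ∈ A) →
      (F.card : ℝ) ≤ C * T ^ ((p : ℝ) / q) * (1 + Real.log T) ^ k := by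
    intro F hF
    have hF' : ∀ o : {o // o ∈ F}, ∃ x : Q.Rep K, Quotient.mk (Q.orbitSetoid K) x = o.1 ∧
      Q.Stable θ x ∧ Q.ev P x ≠ 0 ∧ Q.height n s x ≤ T := fun o => hF o.1 o.2
    choose r hr using hF'
    have hinj : Function.Injective r := by
      intro o o' h
      apply Subtype.ext
      rw [← (hr o).1, ← (hr o').1, h]
    have h1 := hcount T hT (F.attach.image r) ?_ ?_
    · rwa [Finset.card_image_of_injective _ hinj, Finset.card_attach] at h1
    · intro x hx y hy hg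
      obtain ⟨o, -, rfl⟩ := Finset.mem_image.mp hx
      obtain ⟨o', -, rfl⟩ := Finset.mem_image.mp hy
      have h2 : Quotient.mk (Q.orbitSetoid K) (r o) = Quotient.mk (Q.orbitSetoid K) (r o') :=
        Quotient.sound hg
      rw [(hr o).1, (hr o').1] at h2
      rw [Subtype.ext h2]
    · intro x hx
      obtain ⟨o, -, rfl⟩ := Finset.mem_image.mp hx
      exact (hr o).2
  have hfin : A.Finite := by
    by_contra hinf
    obtain ⟨F, hFsub, hFcard⟩ := Set.Infinite.exists_subset_card_eq hinf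
      (⌊C * T ^ ((p : ℝ) / q) * (1 + Real.log T) ^ k⌋₊ + 1)
    have h1 := key F (fun o ho => hFsub ho)
    rw [hFcard] at h1
    have h2 := Nat.lt_floor_add_one (C * T ^ ((p : ℝ) / q) * (1 + Real.log T) ^ k)
    push_cast at h1
    linarith
  refine ⟨hfin, ?_⟩
  rw [Set.ncard_eq_toFinset_card _ hfin]
  exact key _ (fun o ho => by simpa using ho)

end Pool.Agent.Results.MP_18ea5f_nt.WeakManinQuiver
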