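import Mathlib
import Pool.Agent.GC.Defs
import Pool.Agent.GC.SDefs
import Pool.Agent.GC.SAll

set_option autoImplicit false

/-!
# MP_18ea5f_nt: the weak Manin conjecture for spherical varieties of split reductive groups

`G` is a connected split solvable group over a number field `K` (a closed subgroup `I` of `SL_N`
of upper triangular matrices, with a generically finite dominant rational map `φ` from an affine
space), acting on the closure `X` of the orbit `U` of `[v₀]`, a point with finite stabiliser, in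
`P^(N-1)`.  For forms `L_1, …, L_a` of degree `e` which give a generically finite map on `X` the
number of points of `U(K)` outside a proper closed subset with height `H(L(x)) ≤ T` is
`O(T^(k/m) (log T)^e')` as soon as `Q₁/Q₂` gives a nonzero section of `m K_X + k L`; the sheaf
`K_X + (d+1) A` is described by the Plücker coordinates of the tangent spaces of `X`.
By the local structure theorem every smooth projective spherical variety of a split reductive
group is such an `X`.
-/

namespace Pool.Agent.Results.MP_18ea5f_nt.WeakManinSpherical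

open MvPolynomial Pool.GC

open scoped LinearAlgebra.Projectivization

/-- Weak Manin bound for spherical varieties. -/
theorem result (K : Type) [Field K] [NumberField K] (N d a e b m k n : ℕ)
    (I : Set (MvPolynomial (Fin N × Fin N) K))
    (ξ : Fin d → Matrix (Fin N) (Fin N) K) (φ : Matrix (Fin N) (Fin N) (RF K d))
    (v₀ : Fin N → K) (L : Fin a → MvPolynomial (Fin N) K) (Q₁ Q₂ : MvPolynomial (Fin N) K)
    (hI : IsGroup I) (hT : Triangular I) (hξ : IsLieBasis I ξ) (hφ : IsParam I φ)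
    (hv₀ : v₀ ≠ 0) (hfin : FinStab I v₀ n)
    (hL : ∀ j, (L j).IsHomogeneous e) (hbig : BigForm φ v₀ L) (hm : 0 < m)
    (hQ₁ : Q₁.IsHomogeneous (b + k * e)) (hQ₂ : Q₂.IsHomogeneous b)
    (hQ₁0 : aeval (orb v₀ φ) Q₁ ≠ 0) (hQ₂0 : aeval (orb v₀ φ) Q₂ ≠ 0)
    (heff : ∀ i, IntegralOver
      (Submodule.span K (Set.range (plk ξ (orb v₀ φ))) ^ m *
        Submodule.span K (Set.range fun j => aeval (orb v₀ φ) (L j)) ^ k)
      (aeval (orb v₀ φ) Q₁ / aeval (orb v₀ φ) Q₂ * orb v₀ φ i ^ (m * (d + 1)))) :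
    ∃ (Λ : MvPolynomial (Fin N) K) (b' : ℕ), Λ.IsHomogeneous b' ∧ aeval (orb v₀ φ) Λ ≠ 0 ∧
      ∃ (C : ℝ) (e' : ℕ), ∀ T : ℝ, 1 ≤ T →
      {p : ℙ K (Fin N → K) | InOrb I v₀ p.rep ∧ eval p.rep Λ ≠ 0 ∧
        Height.mulHeight (fun j => eval p.rep (L j)) ≤ T}.Finite ∧
      ({p : ℙ K (Fin N → K) | InOrb I v₀ p.rep ∧ eval p.rep Λ ≠ 0 ∧
        Height.mulHeight (fun j => eval p.rep (L j)) ≤ T}.ncard : ℝ) ≤
        C * T ^ ((k : ℝ) / (m : ℝ)) * (1 + Real.log T) ^ e' :=
  all_sMain K N d a e b m k n I ξ φ v₀ L Q₁ Q₂ hI hT hξ hφ hv₀ hfin hL hbig hm hQ₁ hQ₂ hQ₁0 hQ₂0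
    heff

end Pool.Agent.Results.MP_18ea5f_nt.WeakManinSpherical
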